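import Mathlib
import Pool.Agent.N240.HK.Stm

set_option autoImplicit false

open Filter Topology Set

namespace Pool.Agent.N950.HK

open Pool.Agent.N240.HK

theorem main : S_kap := by
  classical
  intro c hc
  obtain ⟨P, hP⟩ : ∃ P : ℝ → ℕ → Prop, ∀ δ M, P δ M ↔ (1 ≤ M ∧ δ ^ (1 / (M : ℝ)) ≤ c M) :=
    ⟨_, fun _ _ => Iff.rfl⟩
  obtain ⟨m, hm⟩ : ∃ m : ℝ → ℕ, ∀ δ, m δ = Nat.findGreatest (P δ) ⌈1 / δ⌉₊ := ⟨_, fun _ => rfl⟩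
  have h1 : ∀ M : ℕ, 1 ≤ M → ∀ᶠ δ in 𝓝[>] (0 : ℝ), P δ M := by
    intro M hM
    have hM' : (0 : ℝ) < 1 / (M : ℝ) := by positivity
    have ht : Tendsto (fun δ : ℝ => δ ^ (1 / (M : ℝ))) (𝓝[>] 0) (𝓝 0) := by
      have := (Real.continuousAt_rpow_const (0 : ℝ) (1 / (M : ℝ)) (Or.inr hM'.le)).tendsto
      rw [Real.zero_rpow hM'.ne'] at this
      exact this.mono_left nhdsWithin_le_nhds
    filter_upwards [ht.eventually (ge_mem_nhds (hc M))] with δ hδ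
    exact (hP δ M).2 ⟨hM, hδ⟩
  have h2 : ∀ M : ℕ, ∀ᶠ δ in 𝓝[>] (0 : ℝ), M ≤ ⌈1 / δ⌉₊ := by
    intro M
    have ht : Tendsto (fun δ : ℝ => 1 / δ) (𝓝[>] 0) atTop := by
      simpa using tendsto_inv_nhdsGT_zero (𝕜 := ℝ)
    filter_upwards [ht.eventually (eventually_ge_atTop (M : ℝ))] with δ hδ
    exact_mod_cast hδ.trans (Nat.le_ceil _)
  have h3 : ∀ M : ℕ, 1 ≤ M → ∀ᶠ δ in 𝓝[>] (0 : ℝ), M ≤ m δ ∧ P δ (m δ) := by
    intro M hM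
    filter_upwards [h1 M hM, h2 M] with δ ha hb
    rw [hm]
    exact ⟨Nat.le_findGreatest hb ha, Nat.findGreatest_spec hb ha⟩
  have h4 : ∀ B : ℝ, ∀ k : ℕ, B ^ 2 ≤ k → B ≤ √(k : ℝ) := by
    intro B k hk
    exact (le_abs_self B).trans (by rw [← Real.sqrt_sq_eq_abs]; exact Real.sqrt_le_sqrt hk)
  refine ⟨fun δ => max 1 √(m δ : ℝ), fun δ => le_max_left _ _, ?_, ?_⟩
  · refine tendsto_atTop.2 fun b => ?_
    filter_upwards [h3 (⌈b ^ 2⌉₊ + 1) (by omega)] with δ hδ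
    refine (h4 b (m δ) ?_).trans (le_max_right _ _)
    have : ((⌈b ^ 2⌉₊ : ℕ) : ℝ) ≤ (m δ : ℝ) := by
      have := hδ.1
      exact_mod_cast (by omega : ⌈b ^ 2⌉₊ ≤ m δ)
    exact (Nat.le_ceil _).trans this
  · intro B M₀
    filter_upwards [h3 (max M₀ (⌈B ^ 2⌉₊ + 1)) (by omega)] with δ hδ
    refine ⟨m δ, by omega, ?_, ((hP _ _).1 hδ.2).2⟩
    have h5 : (1 : ℝ) ≤ (m δ : ℝ) := by
      exact_mod_cast (by omega : 1 ≤ m δ)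
    have h6 : B ≤ √(m δ : ℝ) := by
      refine h4 B (m δ) ?_
      have : ((⌈B ^ 2⌉₊ : ℕ) : ℝ) ≤ (m δ : ℝ) := by
        exact_mod_cast (by omega : ⌈B ^ 2⌉₊ ≤ m δ)
      exact (Nat.le_ceil _).trans this
    rw [max_eq_right (Real.one_le_sqrt.2 h5)]
    calc B * √(m δ : ℝ) ≤ √(m δ : ℝ) * √(m δ : ℝ) :=
          mul_le_mul_of_nonneg_right h6 (Real.sqrt_nonneg _)
      _ = (m δ : ℝ) := Real.mul_self_sqrt (by positivity)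

end Pool.Agent.N950.HK
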